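import Mathlib

set_option autoImplicit false

namespace Pool.Agent.Helper83.Cyc

/-- A linear code indexed by a group is closed under translations. -/
def Inv {F G : Type} [Field F] [AddCommGroup G] (C : Submodule F (G → F)) : Prop :=
  ∀ g : G, ∀ c ∈ C, (fun x => c (g + x)) ∈ C

/-- The number of nonzero coordinates. -/
noncomputable def wt {F X : Type} [Zero F] (c : X → F) : ℕ := {x | c x ≠ 0}.ncard

/-- There is a translation invariant code on `G` over `F` with rate at least `R` and
all nonzero codewords of relative weight at least `δ`. -/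
def P (F G : Type) [Field F] [AddCommGroup G] (R δ : ℝ) : Prop :=
  ∃ C : Submodule F (G → F), Inv C ∧ R * (Nat.card G : ℝ) ≤ (Module.finrank F C : ℝ) ∧
    ∀ c ∈ C, c ≠ 0 → δ * (Nat.card G : ℝ) ≤ (wt c : ℝ)

lemma wt_comp_equiv {F X Y : Type} [Zero F] (e : X ≃ Y) (c : Y → F) : wt (c ∘ e) = wt c := by
  unfold wt
  have : {x | (c ∘ e) x ≠ 0} = e ⁻¹' {y | c y ≠ 0} := rfl
  rw [this, ← Set.ncard_image_of_injective _ e.injective, Set.image_preimage_eq _ e.surjective]

lemma wt_pos {F X : Type} [Zero F] [Finite X] (c : X → F) (h : c ≠ 0) : 0 < wt c := by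
  unfold wt
  rw [Set.ncard_pos (Set.toFinite _)]
  obtain ⟨x, hx⟩ := Function.ne_iff.1 h
  exact ⟨x, hx⟩

lemma wt_le_card {F X : Type} [Zero F] [Finite X] (c : X → F) : wt c ≤ Nat.card X := by
  unfold wt
  exact Set.ncard_le_card _

lemma P_mono {F G : Type} [Field F] [AddCommGroup G] {R δ R' δ' : ℝ} (hR : R' ≤ R) (hδ : δ' ≤ δ)
    (h : P F G R δ) : P F G R' δ' := by
  obtain ⟨C, h1, h2, h3⟩ := h
  refine ⟨C, h1, ?_, ?_⟩
  · exact le_trans (mul_le_mul_of_nonneg_right hR (Nat.cast_nonneg _)) h2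
  · intro c hc hc0
    exact le_trans (mul_le_mul_of_nonneg_right hδ (Nat.cast_nonneg _)) (h3 c hc hc0)

/-- Transport along an isomorphism of groups. -/
lemma P_of_equiv {F G H : Type} [Field F] [AddCommGroup G] [AddCommGroup H] [Finite G]
    (e : G ≃+ H) {R δ : ℝ} (h : P F G R δ) : P F H R δ := by
  obtain ⟨C, h1, h2, h3⟩ := h
  have hcard : Nat.card H = Nat.card G := (Nat.card_congr e.toEquiv).symm
  let L : (H → F) ≃ₗ[F] (G → F) := LinearEquiv.funCongrLeft F F e.toEquiv
  have hL : ∀ (f : H → F) (x : G), L f x = f (e x) := fun f x => rfl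
  refine ⟨C.comap (L : (H → F) →ₗ[F] (G → F)), ?_, ?_, ?_⟩
  · intro g c hc
    rw [Submodule.mem_comap] at hc ⊢
    have := h1 (e.symm g) _ hc
    refine (congrArg (· ∈ C) ?_).mp this
    funext x
    show L c (e.symm g + x) = L (fun x => c (g + x)) x
    rw [hL, hL]
    simp
  · have : Module.finrank F (C.comap (L : (H → F) →ₗ[F] (G → F))) = Module.finrank F C := by
      have h := LinearEquiv.finrank_eq (L.symm.submoduleMap C)
      rw [h, Submodule.comap_equiv_eq_map_symm]
    rw [this, hcard]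
    exact h2
  · intro c hc hc0
    rw [Submodule.mem_comap] at hc
    have h4 : L c ≠ 0 := by
      intro h
      exact hc0 (by simpa using h)
    have h5 := h3 (L c) hc h4
    have h6 : wt (L c) = wt c := wt_comp_equiv e.toEquiv c
    rw [h6] at h5
    rw [hcard]
    exact h5

end Pool.Agent.Helper83.Cyc
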