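import Pool.Agent.Helper83.Cyc.Ext

set_option autoImplicit false

namespace Pool.Agent.Helper83.Cyc

/-- A linear functional which vanishes on all `η ^ t * z` vanishes, if `η` generates. -/
lemma exists_pow_functional {F L : Type} [Field F] [Field L] [Algebra F L] (lam : L →ₗ[F] F)
    (w : L) (hw : lam w ≠ 0) (η : L) (hη : Algebra.adjoin F {η} = ⊤) (z : L) (hz : z ≠ 0) :
    ∃ t : ℕ, lam (η ^ t * z) ≠ 0 := by
  by_contra h
  push Not at h
  have h1 : ∀ y ∈ Algebra.adjoin F {η}, lam (y * z) = 0 := by
    intro y hy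
    rw [Algebra.adjoin_singleton_eq_range_aeval] at hy
    obtain ⟨P, rfl⟩ := hy
    show lam (Polynomial.aeval η P * z) = 0
    rw [Polynomial.aeval_eq_sum_range, Finset.sum_mul, map_sum]
    refine Finset.sum_eq_zero fun i _ => ?_
    rw [smul_mul_assoc, map_smul, h i, smul_zero]
  have h2 := h1 (w * z⁻¹) (by rw [hη]; trivial)
  rw [mul_assoc, inv_mul_cancel₀ hz, mul_one] at h2
  exact hw h2

/-- Descent of a code from `L` to `F` by a linear functional. -/
theorem descend {F L G : Type} [Field F] [Field L] [Algebra F L] [FiniteDimensional F L]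
    [AddCommGroup G] [Finite G] (D : Submodule L (G → L)) (hD : Inv D) (g0 : G) (N : ℕ)
    (hN : 0 < N) (hg : N • g0 = 0) (η : L) (hη : Algebra.adjoin F {η} = ⊤)
    (h : ∀ c ∈ D, ∀ x, c (g0 + x) = η * c x) :
    ∃ E : Submodule F (G → F), Inv E ∧ Module.finrank L D ≤ Module.finrank F E ∧
      ∀ c ∈ E, c ≠ 0 → ∃ c' ∈ D, c' ≠ 0 ∧ wt c' ≤ N * wt c := by
  obtain ⟨lam, hlam⟩ := exists_functional (K := F) (1 : L) one_ne_zero
  let Λ : (G → L) →ₗ[F] (G → F) := lam.compLeft G
  have hΛ : ∀ c x, Λ c x = lam (c x) := fun c x => rfl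
  -- iteration of the period
  have hiter : ∀ c ∈ D, ∀ t : ℕ, ∀ x, c (t • g0 + x) = η ^ t * c x := by
    intro c hc t
    induction t with
    | zero => intro x; simp
    | succ t ih =>
      intro x
      rw [succ_nsmul', add_assoc, h c hc, ih, pow_succ']
      ring
  -- the key local statement
  have hkey : ∀ c ∈ D, ∀ x, c x ≠ 0 → ∃ t < N, lam (c (t • g0 + x)) ≠ 0 := by
    intro c hc x hx
    obtain ⟨t, ht⟩ := exists_pow_functional lam 1 hlam η hη (c x) hx
    refine ⟨t % N, Nat.mod_lt _ hN, ?_⟩
    have h1 : (t % N) • g0 = t • g0 := by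
      have h2 : t • g0 = (t % N) • g0 + (t / N) • (N • g0) := by
        rw [smul_smul, ← add_nsmul]
        congr 1
        rw [mul_comm]
        exact (Nat.mod_add_div t N).symm
      rw [h2, hg, smul_zero, add_zero]
    rw [h1, hiter c hc]
    exact ht
  let D' : Submodule F (G → L) := D.restrictScalars F
  refine ⟨D'.map Λ, ?_, ?_, ?_⟩
  · intro g c hc
    obtain ⟨c', hc', rfl⟩ := hc
    exact ⟨fun x => c' (g + x), hD g c' hc', rfl⟩
  · have hfd : FiniteDimensional F (G → L) := inferInstance
    have hfL : FiniteDimensional L (G → L) := inferInstance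
    have hinj : Function.Injective (Λ.domRestrict D') := by
      rw [← LinearMap.ker_eq_bot, LinearMap.ker_eq_bot']
      intro c hc
      apply Subtype.ext
      by_contra hne
      obtain ⟨x, hx⟩ := Function.ne_iff.1 hne
      obtain ⟨t, _, ht⟩ := hkey c.1 c.2 x hx
      apply ht
      have := congrFun hc (t • g0 + x)
      exact this
    have h1 : Module.finrank F (D'.map Λ) = Module.finrank F D' := by
      have h2 := LinearMap.finrank_range_of_inj hinj
      rw [LinearMap.range_domRestrict] at h2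
      exact h2
    rw [h1]
    have h3 : Module.finrank F D' = Module.finrank F L * Module.finrank L D :=
      (Module.finrank_mul_finrank F L D).symm
    rw [h3]
    exact Nat.le_mul_of_pos_left _ Module.finrank_pos
  · intro c hc hc0
    obtain ⟨c', hc', rfl⟩ := hc
    have hc'0 : c' ≠ 0 := by
      rintro rfl
      exact hc0 (map_zero Λ)
    refine ⟨c', hc', hc'0, ?_⟩
    -- weights
    have hsub : {x | c' x ≠ 0} ⊆ ⋃ t ∈ Finset.range N, (fun y => -(t • g0) + y) '' {y | Λ c' y ≠ 0} := by
      intro x hx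
      obtain ⟨t, ht, ht'⟩ := hkey c' hc' x hx
      simp only [Finset.mem_range, Set.mem_iUnion]
      refine ⟨t, ht, t • g0 + x, ht', ?_⟩
      show -(t • g0) + (t • g0 + x) = x
      abel
    unfold wt
    refine le_trans (Set.ncard_le_ncard hsub (Set.toFinite _)) ?_
    refine le_trans (Finset.set_ncard_biUnion_le _ _) ?_
    have : ∀ t ∈ Finset.range N, ((fun y => -(t • g0) + y) '' {y | Λ c' y ≠ 0}).ncard ≤
        {y | Λ c' y ≠ 0}.ncard := fun t _ => Set.ncard_image_le (Set.toFinite _)
    refine le_trans (Finset.sum_le_sum this) ?_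
    simp

end Pool.Agent.Helper83.Cyc
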