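import Pool.Agent.Helper83.Cyc.Eigen

set_option autoImplicit false

open Polynomial

namespace Pool.Agent.Helper83.Cyc

lemma iter_eig' {L G : Type} [Field L] [AddCommGroup G] (c : G → L) (g : G) (η : L)
    (h : ∀ x, c (g + x) = η * c x) (k : ℕ) (x : G) : c (k • g + x) = η ^ k * c x := by
  induction k generalizing x with
  | zero => simp
  | succ k ih =>
    rw [succ_nsmul', add_assoc, h, ih, pow_succ']
    ring

/-- A factor `ZMod m` can be dropped when `X ^ m - 1` splits. -/
lemma P_drop {K H : Type} [Field K] [AddCommGroup H] [Finite H] (m : ℕ) (hm : 0 < m)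
    (hs : (X ^ m - 1 : K[X]).Splits) {R δ : ℝ} (h : P K (H × ZMod m) R δ) : P K H R δ := by
  obtain ⟨D, h1, h2, h3⟩ := h
  have hmz : NeZero m := ⟨hm.ne'⟩
  have hmpos : (0 : ℝ) < m := by exact_mod_cast hm
  have hcardG : Nat.card (H × ZMod m) = Nat.card H * m := by
    rw [Nat.card_prod, Nat.card_zmod]
  rw [hcardG] at h2 h3
  push_cast at h2 h3
  have hg : m • ((0, 1) : H × ZMod m) = 0 := by
    ext <;> simp
  have hsum := finrank_le_sum_eig D h1 ((0, 1) : H × ZMod m) m hm hg hs
  have hcard : (X ^ m - 1 : K[X]).roots.card = m := by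
    rw [← hs.natDegree_eq_card_roots]
    exact natDegree_X_pow_sub_C (n := m) (r := (1 : K))
  obtain ⟨η, hη, hη'⟩ : ∃ η ∈ (X ^ m - 1 : K[X]).roots,
      Module.finrank K D ≤ m * Module.finrank K (eig D ((0, 1) : H × ZMod m) η) := by
    by_contra hcon
    push Not at hcon
    have h5 : m * ((X ^ m - 1 : K[X]).roots.map
        (fun η => Module.finrank K (eig D ((0, 1) : H × ZMod m) η))).sum <
        m * Module.finrank K D := by
      rw [← Multiset.sum_map_mul_left]
      have hne : (X ^ m - 1 : K[X]).roots ≠ 0 := by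
        intro h
        rw [h, Multiset.card_zero] at hcard
        omega
      have h6 := Multiset.sum_lt_sum_of_nonempty hne (f := fun η =>
        m * Module.finrank K (eig D ((0, 1) : H × ZMod m) η))
        (g := fun _ => Module.finrank K D) hcon
      rw [Multiset.map_const', Multiset.sum_replicate, hcard, smul_eq_mul] at h6
      exact h6
    have h6 := Nat.lt_of_mul_lt_mul_left h5
    omega
  set W := eig D ((0, 1) : H × ZMod m) η with hW
  have hWinv : Inv W := eig_inv D h1 _ _
  let r : (H × ZMod m → K) →ₗ[K] (H → K) := LinearMap.funLeft K K (fun x => (x, (0 : ZMod m)))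
  have hr : ∀ c x, r c x = c (x, 0) := fun c x => rfl
  have hloc : ∀ c ∈ W, ∀ x : H, ∀ t : ZMod m, c (x, t) = η ^ t.val * c (x, 0) := by
    intro c hc x t
    have h5 := iter_eig' c ((0, 1) : H × ZMod m) η hc.2 t.val (x, 0)
    rw [← h5]
    congr 1
    ext <;> simp
  have hrinj : Function.Injective (r.domRestrict W) := by
    rw [← LinearMap.ker_eq_bot, LinearMap.ker_eq_bot']
    intro c hc
    apply Subtype.ext
    funext z
    obtain ⟨x, t⟩ := z
    rw [hloc c.1 c.2]
    have : (c : H × ZMod m → K) (x, 0) = 0 := congrFun hc x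
    rw [this, mul_zero]
    rfl
  refine ⟨W.map r, ?_, ?_, ?_⟩
  · rintro g _ ⟨c, hc, rfl⟩
    refine ⟨fun z => c ((g, 0) + z), hWinv (g, 0) c hc, ?_⟩
    funext x
    rw [hr]
    show c ((g, 0) + (x, 0)) = r c (g + x)
    rw [hr]
    congr 1
    ext <;> simp
  · have h6 : Module.finrank K (W.map r) = Module.finrank K W := by
      have h7 := LinearMap.finrank_range_of_inj hrinj
      rw [LinearMap.range_domRestrict] at h7
      exact h7
    rw [h6]
    have h8 : (Module.finrank K D : ℝ) ≤ m * Module.finrank K W := by exact_mod_cast hη'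
    have h9 : m * (R * (Nat.card H : ℝ)) ≤ m * (Module.finrank K W : ℝ) := by linarith
    exact le_of_mul_le_mul_left h9 hmpos
  · rintro _ ⟨c, hc, rfl⟩ hc0
    have hcne : c ≠ 0 := by
      rintro rfl
      exact hc0 (map_zero r)
    have h6 := h3 c hc.1 hcne
    have h7 : wt c ≤ wt (r c) * m := by
      have hsub : {z : H × ZMod m | c z ≠ 0} ⊆ {x | r c x ≠ 0} ×ˢ (Set.univ : Set (ZMod m)) := by
        rintro ⟨x, t⟩ hz
        refine ⟨?_, trivial⟩
        show r c x ≠ 0
        intro h0
        rw [hr] at h0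
        exact hz (by rw [hloc c hc, h0, mul_zero])
      have h8 := Set.ncard_le_ncard hsub (Set.toFinite _)
      rw [Set.ncard_prod, Set.ncard_univ, Nat.card_zmod] at h8
      exact h8
    have h8 : (wt c : ℝ) ≤ wt (r c) * m := by exact_mod_cast h7
    have h9 : m * (δ * (Nat.card H : ℝ)) ≤ m * (wt (r c) : ℝ) := by linarith
    exact le_of_mul_le_mul_left h9 hmpos

/-- The group `A` can be dropped. -/
def Droppable (K A : Type) [Field K] [AddCommGroup A] : Prop :=
  ∀ (H : Type) [AddCommGroup H] [Finite H] (R δ : ℝ), P K (H × A) R δ → P K H R δ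

lemma droppable_equiv {K A B : Type} [Field K] [AddCommGroup A] [AddCommGroup B] [Finite B]
    (e : A ≃+ B) (h : Droppable K A) : Droppable K B := by
  intro H _ _ R δ hP
  exact h H R δ (P_of_equiv (AddEquiv.prodCongr (AddEquiv.refl H) e.symm) hP)

lemma droppable_prod {K A B : Type} [Field K] [AddCommGroup A] [AddCommGroup B] [Finite A]
    [Finite B] (hA : Droppable K A) (hB : Droppable K B) : Droppable K (A × B) := by
  intro H _ _ R δ hP
  exact hA H R δ (hB (H × A) R δ (P_of_equiv (AddEquiv.prodAssoc (M := H) (N := A) (P := B)).symm hP))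

lemma droppable_unique {K A : Type} [Field K] [AddCommGroup A] [Unique A] : Droppable K A := by
  intro H _ _ R δ hP
  exact P_of_equiv (AddEquiv.prodUnique (M := H) (N := A)) hP

lemma droppable_pi {K : Type} [Field K] (ι : Type) [Fintype ι] :
    ∀ (m : ι → ℕ), (∀ i, 0 < m i) → (∀ i, (X ^ (m i) - 1 : K[X]).Splits) →
      Droppable K (∀ i, ZMod (m i)) := by
  refine Fintype.induction_empty_option (P := fun ι _ => ∀ (m : ι → ℕ), (∀ i, 0 < m i) →
    (∀ i, (X ^ (m i) - 1 : K[X]).Splits) → Droppable K (∀ i, ZMod (m i))) ?_ ?_ ?_ ι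
  · intro α β hβ e hα m hm hs
    have hfin : ∀ i, NeZero (m i) := fun i => ⟨(hm i).ne'⟩
    have h1 := hα (fun i => m (e i)) (fun i => hm _) (fun i => hs _)
    exact droppable_equiv (RingEquiv.piCongrLeft (fun j => ZMod (m j)) e).toAddEquiv h1
  · intro m hm hs
    exact droppable_unique
  · intro α hα ih m hm hs
    have hfin : ∀ i, NeZero (m i) := fun i => ⟨(hm i).ne'⟩
    have h1 := ih (fun i => m (some i)) (fun i => hm _) (fun i => hs _)
    have h2 : Droppable K (ZMod (m none)) := by
      intro H _ _ R δ hP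
      exact P_drop (m none) (hm _) (hs _) hP
    exact droppable_equiv (RingEquiv.piOptionEquivProd (R := fun i => ZMod (m i))).symm.toAddEquiv
      (droppable_prod h2 h1)

/-- Finite abelian groups whose elements have order dividing `p ^ s * e` can be dropped over
fields of characteristic `p` over which `X ^ e - 1` splits. -/
theorem droppable_of_exponent {K : Type} [Field K] (p : ℕ) [Fact p.Prime] [CharP K p] (e : ℕ)
    (he : 0 < e) (hs : (X ^ e - 1 : K[X]).Splits) (A : Type) [AddCommGroup A] [Finite A]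
    (hA : ∀ a : A, ∃ s : ℕ, (p ^ s * e) • a = 0) : Droppable K A := by
  classical
  obtain ⟨ι, hι, m, hm, ⟨f⟩⟩ := AddCommGroup.equiv_directSum_zmod_of_finite' A
  let g : A ≃+ (∀ i, ZMod (m i)) := f.trans (DirectSum.addEquivProd (fun i => ZMod (m i)))
  have hm0 : ∀ i, 0 < m i := fun i => lt_trans Nat.zero_lt_one (hm i)
  refine droppable_equiv g.symm (droppable_pi ι m hm0 fun i => ?_)
  obtain ⟨s, hs'⟩ := hA (g.symm (Pi.single i 1))
  have h1 : (p ^ s * e) • (Pi.single i 1 : ∀ i, ZMod (m i)) = 0 := by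
    have := congrArg g hs'
    rw [map_nsmul, AddEquiv.apply_symm_apply, map_zero] at this
    exact this
  have h2 := congrFun h1 i
  rw [Pi.smul_apply, Pi.single_eq_same, nsmul_eq_mul, mul_one, Pi.zero_apply,
    ZMod.natCast_eq_zero_iff] at h2
  have h3 : (X ^ (p ^ s * e) - 1 : K[X]) = (X ^ e - 1) ^ (p ^ s) := by
    have hchar : CharP K[X] p := inferInstance
    rw [sub_pow_char_pow, one_pow, ← pow_mul, mul_comm e]
  have h4 : (X ^ (p ^ s * e) - 1 : K[X]).Splits := by
    rw [h3]
    exact hs.pow _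
  have hpe : 0 < p ^ s * e := Nat.mul_pos (pow_pos (Fact.out : p.Prime).pos s) he
  have h5 : (X ^ (p ^ s * e) - 1 : K[X]) ≠ 0 := (monic_X_pow_sub_C 1 hpe.ne').ne_zero
  refine h4.of_dvd h5 ?_
  obtain ⟨t, ht⟩ := h2
  rw [ht, pow_mul]
  exact sub_one_dvd_pow_sub_one _ t

end Pool.Agent.Helper83.Cyc
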