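import Pool.Agent.Helper83.Cyc.Descend

set_option autoImplicit false

open Polynomial

namespace Pool.Agent.Helper83.Cyc

lemma finrank_ker_comp_le {K V : Type} [Field K] [AddCommGroup V] [Module K V]
    [FiniteDimensional K V] (A B : V →ₗ[K] V) :
    Module.finrank K (LinearMap.ker (A ∘ₗ B)) ≤
      Module.finrank K (LinearMap.ker A) + Module.finrank K (LinearMap.ker B) := by
  let W := LinearMap.ker (A ∘ₗ B)
  let f : W →ₗ[K] V := B.domRestrict W
  have h1 := LinearMap.finrank_range_add_finrank_ker f
  have h2 : Module.finrank K (LinearMap.range f) ≤ Module.finrank K (LinearMap.ker A) := by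
    apply Submodule.finrank_mono
    rintro _ ⟨w, rfl⟩
    have := w.2
    rw [LinearMap.mem_ker] at this ⊢
    exact this
  have h3 : Module.finrank K (LinearMap.ker f) ≤ Module.finrank K (LinearMap.ker B) := by
    have h4 : (LinearMap.ker f).map W.subtype ≤ LinearMap.ker B := by
      rintro _ ⟨w, hw, rfl⟩
      have h5 : f w = 0 := hw
      exact h5
    have h5 := Submodule.finrank_mono h4
    rwa [Submodule.finrank_map_subtype_eq] at h5
  show Module.finrank K W ≤ _
  omega

lemma finrank_ker_aeval_le {K V : Type} [Field K] [AddCommGroup V] [Module K V]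
    [FiniteDimensional K V] (T : V →ₗ[K] V) (s : Multiset K) :
    Module.finrank K (LinearMap.ker (aeval T (s.map (fun η => (X : K[X]) - C η)).prod)) ≤
      (s.map (fun η => Module.finrank K (LinearMap.ker (T - algebraMap K (V →ₗ[K] V) η)))).sum := by
  induction s using Multiset.induction with
  | empty =>
    have h1 : aeval T (((0 : Multiset K).map (fun η => (X : K[X]) - C η)).prod) = 1 := by
      rw [Multiset.map_zero, Multiset.prod_zero, map_one]
    have h2 : LinearMap.ker (aeval T (((0 : Multiset K).map (fun η => (X : K[X]) - C η)).prod))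
        = ⊥ := by
      rw [h1]
      exact LinearMap.ker_id
    have h3 : Module.finrank K (LinearMap.ker (aeval T (((0 : Multiset K).map
        (fun η => (X : K[X]) - C η)).prod))) = 0 := by
      rw [h2]
      exact finrank_bot K V
    rw [h3]
    exact Nat.zero_le _
  | cons η s ih =>
    rw [Multiset.map_cons, Multiset.prod_cons, Multiset.map_cons, Multiset.sum_cons, map_mul]
    have h1 : aeval T ((X : K[X]) - C η) = T - algebraMap K (V →ₗ[K] V) η := by
      rw [map_sub, aeval_X, aeval_C]
    rw [h1]
    exact le_trans (finrank_ker_comp_le _ _) (by gcongr)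

/-- The part of a code on which the translation by `g` acts by the scalar `η`. -/
def eig {K G : Type} [Field K] [AddCommGroup G] (D : Submodule K (G → K)) (g : G) (η : K) :
    Submodule K (G → K) where
  carrier := {c | c ∈ D ∧ ∀ x, c (g + x) = η * c x}
  add_mem' := by
    rintro a b ⟨ha, ha'⟩ ⟨hb, hb'⟩
    refine ⟨D.add_mem ha hb, fun x => ?_⟩
    rw [Pi.add_apply, Pi.add_apply, ha', hb', mul_add]
  zero_mem' := ⟨D.zero_mem, fun x => by simp⟩
  smul_mem' := by
    rintro r a ⟨ha, ha'⟩
    refine ⟨D.smul_mem r ha, fun x => ?_⟩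
    rw [Pi.smul_apply, Pi.smul_apply, ha', smul_eq_mul, smul_eq_mul]
    ring

lemma mem_eig {K G : Type} [Field K] [AddCommGroup G] (D : Submodule K (G → K)) (g : G) (η : K)
    (c : G → K) : c ∈ eig D g η ↔ c ∈ D ∧ ∀ x, c (g + x) = η * c x := Iff.rfl

lemma eig_inv {K G : Type} [Field K] [AddCommGroup G] (D : Submodule K (G → K)) (hD : Inv D)
    (g : G) (η : K) : Inv (eig D g η) := by
  rintro g' c ⟨hc, hc'⟩
  refine ⟨hD g' c hc, fun x => ?_⟩
  show c (g' + (g + x)) = η * c (g' + x)
  rw [← hc', add_left_comm]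

/-- The dimension of an invariant code is at most the sum of the dimensions of its eigenparts. -/
theorem finrank_le_sum_eig {K G : Type} [Field K] [AddCommGroup G] [Finite G]
    (D : Submodule K (G → K)) (hD : Inv D) (g : G) (e : ℕ) (he : 0 < e) (hg : e • g = 0)
    (hs : (X ^ e - 1 : K[X]).Splits) :
    Module.finrank K D ≤ ((X ^ e - 1 : K[X]).roots.map
      (fun η => Module.finrank K (eig D g η))).sum := by
  have hfd : FiniteDimensional K (G → K) := inferInstance
  let T0 : (G → K) →ₗ[K] (G → K) := LinearMap.funLeft K K (fun x => g + x)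
  have hT0 : ∀ c ∈ D, T0 c ∈ D := fun c hc => hD g c hc
  let T : D →ₗ[K] D := T0.restrict hT0
  have hT : ∀ (c : D) (x : G), (T c : G → K) x = (c : G → K) (g + x) := fun c x => rfl
  have hTpow : ∀ (k : ℕ) (c : D) (x : G), ((T ^ k) c : G → K) x = (c : G → K) (k • g + x) := by
    intro k
    induction k with
    | zero => intro c x; simp
    | succ k ih =>
      intro c x
      rw [pow_succ, Module.End.mul_apply, ih, hT, succ_nsmul, ← add_assoc, add_comm g]
  have hTe : T ^ e = 1 := by
    apply LinearMap.ext
    intro c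
    apply Subtype.ext
    funext x
    rw [hTpow, hg, zero_add]
    rfl
  have hmonic : (X ^ e - 1 : K[X]).Monic := monic_X_pow_sub_C 1 he.ne'
  have hprod : (X ^ e - 1 : K[X]) = ((X ^ e - 1 : K[X]).roots.map (fun η => X - C η)).prod :=
    hs.eq_prod_roots_of_monic hmonic
  have h1 := finrank_ker_aeval_le T (X ^ e - 1 : K[X]).roots
  rw [← hprod] at h1
  have h2 : aeval T (X ^ e - 1 : K[X]) = 0 := by
    rw [map_sub, map_pow, aeval_X, hTe, map_one, sub_self]
  rw [h2] at h1
  have h3 : LinearMap.ker (0 : D →ₗ[K] D) = ⊤ := LinearMap.ker_zero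
  rw [h3, finrank_top] at h1
  refine le_trans h1 (le_of_eq ?_)
  congr 1
  refine Multiset.map_congr rfl fun η _ => ?_
  have h4 : (LinearMap.ker (T - algebraMap K (D →ₗ[K] D) η)).map D.subtype = eig D g η := by
    ext c
    constructor
    · rintro ⟨c', hc', rfl⟩
      refine ⟨c'.2, fun x => ?_⟩
      have h5 : T c' - η • c' = 0 := hc'
      have h6 := congrArg (fun z : D => (z : G → K) x) h5
      simp only [Submodule.coe_sub, Submodule.coe_smul, Pi.sub_apply, Pi.smul_apply, smul_eq_mul,
        ZeroMemClass.coe_zero, Pi.zero_apply, hT] at h6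
      exact sub_eq_zero.1 h6
    · rintro ⟨hc, hc'⟩
      refine ⟨⟨c, hc⟩, ?_, rfl⟩
      show T ⟨c, hc⟩ - η • (⟨c, hc⟩ : D) = 0
      apply Subtype.ext
      funext x
      simp only [Submodule.coe_sub, Submodule.coe_smul, Pi.sub_apply, Pi.smul_apply, smul_eq_mul,
        ZeroMemClass.coe_zero, Pi.zero_apply, hT]
      rw [hc', sub_self]
  rw [← h4, Submodule.finrank_map_subtype_eq]

end Pool.Agent.Helper83.Cyc
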