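import Pool.Agent.Helper83.Cyc.Basic

set_option autoImplicit false

namespace Pool.Agent.Helper83.Cyc

/-- The extension of scalars of a code: all functions whose image under every linear functional
is a codeword. -/
def extCode {K L G : Type} [Field K] [Field L] [Algebra K L] (C : Submodule K (G → K)) :
    Submodule L (G → L) where
  carrier := {y | ∀ μ : L →ₗ[K] K, (fun x => μ (y x)) ∈ C}
  add_mem' := by
    intro a b ha hb μ
    have h := C.add_mem (ha μ) (hb μ)
    refine (congrArg (· ∈ C) ?_).mp h
    funext x
    simp
  zero_mem' := by
    intro μ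
    refine (congrArg (· ∈ C) ?_).mp C.zero_mem
    funext x
    simp
  smul_mem' := by
    intro l y hy μ
    have h := hy (μ ∘ₗ (LinearMap.mul K L l))
    refine (congrArg (· ∈ C) ?_).mp h
    funext x
    simp

lemma mem_extCode {K L G : Type} [Field K] [Field L] [Algebra K L] (C : Submodule K (G → K))
    (y : G → L) : y ∈ extCode (L := L) C ↔ ∀ μ : L →ₗ[K] K, (fun x => μ (y x)) ∈ C := Iff.rfl

lemma exists_functional {K L : Type} [Field K] [Field L] [Algebra K L] (z : L) (hz : z ≠ 0) :
    ∃ μ : L →ₗ[K] K, μ z ≠ 0 := by
  by_contra h
  push Not at h
  exact hz ((Module.forall_dual_apply_eq_zero_iff K z).1 h)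

lemma P_ext {K L G : Type} [Field K] [Field L] [Algebra K L] [FiniteDimensional K L]
    [AddCommGroup G] [Finite G] {R δ : ℝ} (h : P K G R δ) : P L G R δ := by
  obtain ⟨C, h1, h2, h3⟩ := h
  refine ⟨extCode C, ?_, ?_, ?_⟩
  · intro g c hc
    rw [mem_extCode] at hc ⊢
    intro μ
    exact h1 g _ (hc μ)
  · -- dimension
    have hfd : FiniteDimensional K (G → L) := inferInstance
    have hfL : FiniteDimensional L (G → L) := inferInstance
    let b := Module.finBasis K L
    set m := Module.finrank K L with hm
    have hmpos : 0 < m := Module.finrank_pos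
    let D : Submodule K (G → L) := (extCode (L := L) C).restrictScalars K
    -- the map
    let Φ : (Fin m → C) →ₗ[K] (G → L) :=
      { toFun := fun y x => ∑ j, (y j : G → K) x • b j
        map_add' := by
          intro y z
          funext x
          simp [add_smul, Finset.sum_add_distrib]
        map_smul' := by
          intro r y
          funext x
          simp [mul_smul, Finset.smul_sum] }
    have hΦ : ∀ y x, Φ y x = ∑ j, (y j : G → K) x • b j := fun y x => rfl
    have hmem : ∀ y, Φ y ∈ D := by
      intro y
      show Φ y ∈ extCode (L := L) C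
      rw [mem_extCode]
      intro μ
      have : (fun x => μ (Φ y x)) = ∑ j, μ (b j) • (y j : G → K) := by
        funext x
        rw [hΦ, map_sum, Finset.sum_apply]
        refine Finset.sum_congr rfl fun j _ => ?_
        rw [map_smul, Pi.smul_apply, smul_eq_mul, smul_eq_mul, mul_comm]
      rw [this]
      exact Submodule.sum_mem _ fun j _ => C.smul_mem _ (y j).2
    have hinj : Function.Injective Φ := by
      rw [← LinearMap.ker_eq_bot, LinearMap.ker_eq_bot']
      intro y hy
      funext j
      apply Subtype.ext
      funext x
      have h5 : ∑ j, (y j : G → K) x • b j = 0 := by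
        rw [← hΦ, hy]
        rfl
      have h6 := (Fintype.linearIndependent_iff.1 b.linearIndependent) (fun j => (y j : G → K) x) h5 j
      simpa using h6
    have hle : m * Module.finrank K C ≤ Module.finrank K D := by
      have h7 : Module.finrank K (Fin m → C) = m * Module.finrank K C := by
        rw [Module.finrank_pi_fintype]
        simp
      rw [← h7]
      exact LinearMap.finrank_le_finrank_of_injective (f := Φ.codRestrict D hmem)
        (fun a b hab => hinj (by simpa using congrArg Subtype.val hab))
    have hD : Module.finrank K D = m * Module.finrank L (extCode (L := L) C) := by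
      have : Module.finrank K (extCode (L := L) C) = m * Module.finrank L (extCode (L := L) C) :=
        (Module.finrank_mul_finrank K L (extCode (L := L) C)).symm
      rw [← this]
      rfl
    rw [hD] at hle
    have h8 : Module.finrank K C ≤ Module.finrank L (extCode (L := L) C) :=
      Nat.le_of_mul_le_mul_left hle hmpos
    exact le_trans h2 (by exact_mod_cast h8)
  · intro c hc hc0
    rw [mem_extCode] at hc
    obtain ⟨x0, hx0⟩ := Function.ne_iff.1 hc0
    obtain ⟨μ, hμ⟩ := exists_functional (K := K) (c x0) hx0
    have h4 : (fun x => μ (c x)) ≠ 0 := by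
      intro h
      exact hμ (congrFun h x0)
    refine le_trans (h3 _ (hc μ) h4) ?_
    have : wt (fun x => μ (c x)) ≤ wt c := by
      unfold wt
      apply Set.ncard_le_ncard _ (Set.toFinite _)
      intro x hx hx'
      exact hx (by simp [hx'])
    exact_mod_cast this

/-- Ring homomorphism version. -/
lemma P_ext_hom {K L G : Type} [Field K] [Field L] (f : K →+* L) [Finite L]
    [AddCommGroup G] [Finite G] {R δ : ℝ} (h : P K G R δ) : P L G R δ := by
  let _ : Algebra K L := f.toAlgebra
  have : Module.Finite K L := Module.Finite.of_finite
  exact P_ext h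

end Pool.Agent.Helper83.Cyc
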