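import Mathlib

set_option autoImplicit false

open Polynomial

namespace Pool.Agent.Helper83.Cyc

/-- For every `p ≥ 2`, `k ≥ 1` and every bound there is a prime `N` beyond the bound such that
`k` divides the order of `p` modulo `N`. -/
theorem exists_prime_order (p k B : ℕ) (hp : 2 ≤ p) (hk : 0 < k) :
    ∃ N : ℕ, N.Prime ∧ B ≤ N ∧ ¬ N ∣ p ∧ ∀ j : ℕ, N ∣ p ^ j - 1 → k ∣ j := by
  obtain ⟨P, hPge, hP⟩ := Nat.exists_infinite_primes (B + p ^ k + k + 2)
  have hPk : k < P := by
    have : 0 ≤ p ^ k := Nat.zero_le _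
    omega
  have hPpk : p ^ k < P := by omega
  have hPB : B ≤ P := by
    have : 0 ≤ p ^ k := Nat.zero_le _
    omega
  set e := k * P with he
  have he1 : 1 < e := lt_of_lt_of_le hP.one_lt (Nat.le_mul_of_pos_left P hk)
  have he0 : 0 < e := lt_trans Nat.zero_lt_one he1
  have hΦ := sub_one_lt_natAbs_cyclotomic_eval (n := e) (q := p) he1 (by omega)
  set Φ := ((cyclotomic e ℤ).eval (p : ℤ)).natAbs with hΦdef
  have hΦ1 : Φ ≠ 1 := by omega
  set N := Φ.minFac with hN
  have hNp : N.Prime := Nat.minFac_prime hΦ1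
  have hfact : Fact N.Prime := ⟨hNp⟩
  have hdvd : (N : ℤ) ∣ (cyclotomic e ℤ).eval (p : ℤ) := by
    rw [← Int.dvd_natAbs]
    exact_mod_cast Nat.minFac_dvd Φ
  -- the root modulo `N`
  have hroot : (cyclotomic e (ZMod N)).IsRoot ((p : ℕ) : ZMod N) := by
    rw [IsRoot.def, ← map_cyclotomic_int, eval_map]
    have h1 : eval₂ (Int.castRingHom (ZMod N)) ((p : ℕ) : ZMod N) (cyclotomic e ℤ) =
        Int.castRingHom (ZMod N) ((cyclotomic e ℤ).eval (p : ℤ)) := by
      rw [← eval₂_at_apply]
      simp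
    rw [h1]
    show (((cyclotomic e ℤ).eval (p : ℤ) : ℤ) : ZMod N) = 0
    rw [ZMod.intCast_zmod_eq_zero_iff_dvd]
    exact hdvd
  obtain ⟨a, m, hm, hem⟩ := Nat.exists_eq_pow_mul_and_not_dvd he0.ne' N hNp.ne_one
  have hm0 : 0 < m := by
    rcases Nat.eq_zero_or_pos m with h | h
    · subst h
      exact absurd (dvd_zero N) hm
    · exact h
  have hNe : NeZero ((m : ℕ) : ZMod N) := by
    constructor
    rw [Ne, ZMod.natCast_eq_zero_iff]
    exact hm
  rw [hem] at hroot
  have hprim : IsPrimitiveRoot ((p : ℕ) : ZMod N) m :=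
    isRoot_cyclotomic_prime_pow_mul_iff_of_charP.1 hroot
  have hpne : ((p : ℕ) : ZMod N) ≠ 0 := hprim.ne_zero hm0.ne'
  have hNp' : ¬ N ∣ p := by
    rw [← ZMod.natCast_eq_zero_iff]
    exact hpne
  have hmN : m ∣ N - 1 := by
    rw [← hprim.pow_eq_one_iff_dvd]
    exact ZMod.pow_card_sub_one_eq_one hpne
  have hmlt : m < N := by
    have h1 : m ≤ N - 1 := Nat.le_of_dvd (by have := hNp.two_le; omega) hmN
    have := hNp.two_le
    omega
  have ha : a = 0 := by
    by_contra ha
    have ha1 : 1 ≤ a := Nat.one_le_iff_ne_zero.2 ha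
    have hNe' : N ∣ k * P := by
      rw [← he, hem]
      exact Dvd.dvd.mul_right (dvd_pow_self N ha) m
    by_cases hNP : N = P
    · have hPk' : ¬ P ∣ k := fun h => absurd (Nat.le_of_dvd hk h) (by omega)
      have h1 : k * P = P ^ a * m := by rw [← he, hem, hNP]
      obtain ⟨b, rfl⟩ : ∃ b, a = b + 1 := ⟨a - 1, by omega⟩
      have h2 : k = P ^ b * m := by
        have h3 : P * k = P * (P ^ b * m) := by
          rw [mul_comm P k, h1, pow_succ]
          ring
        exact Nat.eq_of_mul_eq_mul_left hP.pos h3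
      have hb : b = 0 := by
        by_contra hb
        exact hPk' (by rw [h2]; exact Dvd.dvd.mul_right (dvd_pow_self P hb) m)
      subst hb
      rw [pow_zero, one_mul] at h2
      have h4 : ((p : ℕ) : ZMod N) ^ k = 1 := by
        rw [h2]
        exact hprim.pow_eq_one
      have h5 : N ∣ p ^ k - 1 := by
        rw [← ZMod.natCast_eq_zero_iff, Nat.cast_sub (Nat.one_le_pow _ _ (by omega))]
        push_cast
        rw [h4, sub_self]
      have h6 : 0 < p ^ k - 1 := by
        have : 2 ≤ p ^ k := le_trans hp (Nat.le_self_pow hk.ne' p)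
        omega
      have h7 := Nat.le_of_dvd h6 h5
      omega
    · have h1 : N ∣ k := by
        rcases (Nat.Prime.dvd_mul hNp).1 hNe' with h | h
        · exact h
        · exact absurd ((Nat.prime_dvd_prime_iff_eq hNp hP).1 h) hNP
      have h2 : P ∣ N ^ a * m := by
        rw [← hem, he]
        exact dvd_mul_left P k
      have h3 : P ∣ m := by
        rcases (Nat.Prime.dvd_mul hP).1 h2 with h | h
        · exact absurd ((Nat.prime_dvd_prime_iff_eq hP hNp).1 (hP.dvd_of_dvd_pow h)).symm hNP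
        · exact h
      have h4 := Nat.le_of_dvd hk h1
      have h5 := Nat.le_of_dvd hm0 h3
      omega
  rw [ha, pow_zero, one_mul] at hem
  refine ⟨N, hNp, ?_, hNp', ?_⟩
  · have h1 : P ≤ e := Nat.le_mul_of_pos_left P hk
    omega
  · intro j hj
    have h1 : ((p : ℕ) : ZMod N) ^ j = 1 := by
      rw [← ZMod.natCast_eq_zero_iff, Nat.cast_sub (Nat.one_le_pow _ _ (by omega))] at hj
      push_cast at hj
      exact sub_eq_zero.1 hj
    rw [hprim.pow_eq_one_iff_dvd] at h1
    refine dvd_trans ?_ h1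
    rw [← hem, he]
    exact dvd_mul_right k P

/-- For a finite field `K` of characteristic `p` and every bound there are a prime `N` beyond the
bound and a finite field `L` which contains `K` and is generated by a primitive `N`-th root of
unity over the prime field. -/
theorem exists_field (p : ℕ) [hp : Fact p.Prime] (K : Type) [Field K] [Finite K]
    [Algebra (ZMod p) K] (B : ℕ) :
    ∃ (N : ℕ) (L : Type) (_ : Field L) (_ : Algebra (ZMod p) L) (_ : Finite L) (ζ : L),
      N.Prime ∧ B ≤ N ∧ IsPrimitiveRoot ζ N ∧ Algebra.adjoin (ZMod p) {ζ} = ⊤ ∧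
      Nonempty (K →+* L) := by
  have hfinK : Module.Finite (ZMod p) K := Module.Finite.of_finite
  set k := Module.finrank (ZMod p) K with hk
  have hkpos : 0 < k := Module.finrank_pos
  obtain ⟨N, hN, hB, hNp, hord⟩ := exists_prime_order p k B hp.out.two_le hkpos
  have hNZ : NeZero N := ⟨hN.pos.ne'⟩
  have hNe : NeZero ((N : ℕ) : ZMod p) := by
    constructor
    rw [Ne, ZMod.natCast_eq_zero_iff]
    intro h
    have := (Nat.prime_dvd_prime_iff_eq hp.out hN).1 h
    rw [this] at hNp
    exact hNp dvd_rfl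
  let L := CyclotomicField N (ZMod p)
  have hfd : FiniteDimensional (ZMod p) L :=
    IsCyclotomicExtension.finiteDimensional {N} (ZMod p) L
  have hLfin : Finite L := Module.finite_of_finite (ZMod p)
  have hζ := IsCyclotomicExtension.zeta_spec N (ZMod p) L
  have hgen := IsCyclotomicExtension.adjoin_primitive_root_eq_top (A := ZMod p) hζ
  refine ⟨N, L, inferInstance, inferInstance, hLfin, IsCyclotomicExtension.zeta N (ZMod p) L,
    hN, hB, hζ, hgen, ?_⟩
  have hcard : Nat.card L = p ^ Module.finrank (ZMod p) L := by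
    rw [Module.natCard_eq_pow_finrank (K := ZMod p), Nat.card_zmod]
  have hdvd : N ∣ p ^ Module.finrank (ZMod p) L - 1 := by
    rw [← hcard]
    have hft : Fintype L := Fintype.ofFinite L
    rw [← hζ.pow_eq_one_iff_dvd, Nat.card_eq_fintype_card]
    exact FiniteField.pow_card_sub_one_eq_one _ (hζ.ne_zero hN.pos.ne')
  have hkl := hord _ hdvd
  obtain ⟨f⟩ := FiniteField.nonempty_algHom_of_finrank_dvd (F := ZMod p) (K := K) (L := L) hkl
  exact ⟨f.toRingHom⟩

end Pool.Agent.Helper83.Cyc
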