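import Pool.Agent.Helper83.Cyc.Step
import Pool.Agent.Helper83.Cyc.Drop
import Pool.Agent.Helper83.Cyc.Prime

set_option autoImplicit false

open Polynomial Filter

namespace Pool.Agent.Helper83.Cyc

lemma wt_eq_hammingNorm {F X : Type} [Zero F] [Fintype X] [DecidableEq F] (c : X → F) :
    wt c = hammingNorm c := by
  unfold wt hammingNorm
  rw [Set.ncard_eq_toFinset_card']
  congr 1
  ext x
  simp

/-- Inv from the shift by one. -/
lemma inv_of_shift {F : Type} [Field F] (n : ℕ) (hn : 0 < n) (A : Type) [AddCommGroup A]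
    (C : Submodule F (ZMod n × A → F)) (h1 : ∀ c ∈ C, (fun x => c (x.1 + 1, x.2)) ∈ C)
    (h2 : ∀ c ∈ C, ∀ a : A, (fun x => c (x.1, a + x.2)) ∈ C) : Inv C := by
  have hnz : NeZero n := ⟨hn.ne'⟩
  have h3 : ∀ k : ℕ, ∀ c ∈ C, (fun x : ZMod n × A => c (x.1 + (k : ZMod n), x.2)) ∈ C := by
    intro k
    induction k with
    | zero =>
      intro c hc
      refine (congrArg (· ∈ C) ?_).mp hc
      funext x
      simp
    | succ k ih =>
      intro c hc
      have := h1 _ (ih c hc)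
      refine (congrArg (· ∈ C) ?_).mp this
      funext x
      show c (x.1 + 1 + (k : ZMod n), x.2) = c (x.1 + ((k + 1 : ℕ) : ZMod n), x.2)
      congr 2
      push_cast
      ring
  intro g c hc
  have h4 := h3 g.1.val _ (h2 c hc g.2)
  refine (congrArg (· ∈ C) ?_).mp h4
  funext x
  show c (x.1 + ((g.1.val : ℕ) : ZMod n), g.2 + x.2) = c (g + x)
  rw [ZMod.natCast_zmod_val, add_comm x.1]
  rfl

lemma inv_of_shift' {F : Type} [Field F] (n : ℕ) (hn : 0 < n)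
    (C : Submodule F (ZMod n → F)) (h1 : ∀ c ∈ C, (fun x => c (x + 1)) ∈ C) : Inv C := by
  have hnz : NeZero n := ⟨hn.ne'⟩
  have h3 : ∀ k : ℕ, ∀ c ∈ C, (fun x : ZMod n => c (x + (k : ZMod n))) ∈ C := by
    intro k
    induction k with
    | zero =>
      intro c hc
      refine (congrArg (· ∈ C) ?_).mp hc
      funext x
      simp
    | succ k ih =>
      intro c hc
      have := h1 _ (ih c hc)
      refine (congrArg (· ∈ C) ?_).mp this
      funext x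
      show c (x + 1 + (k : ZMod n)) = c (x + ((k + 1 : ℕ) : ZMod n))
      congr 1
      push_cast
      ring
  intro g c hc
  have h4 := h3 g.val _ hc
  refine (congrArg (· ∈ C) ?_).mp h4
  funext x
  show c (x + ((g.val : ℕ) : ZMod n)) = c (g + x)
  rw [ZMod.natCast_zmod_val, add_comm x]

lemma cyc_to_P {F : Type} [Field F] [DecidableEq F] (n : ℕ) (hn : 0 < n)
    (C : Submodule F (Fin n → F)) (hC : ∀ c ∈ C, (fun j => c (finRotate n j)) ∈ C) (R δ : ℝ)
    (h2 : R * (n : ℝ) ≤ (Module.finrank F C : ℝ))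
    (h3 : ∀ c ∈ C, c ≠ 0 → δ * (n : ℝ) ≤ (hammingNorm c : ℝ)) : P F (ZMod n) R δ := by
  obtain ⟨k, rfl⟩ : ∃ k, n = k + 1 := ⟨n - 1, by omega⟩
  refine ⟨(C : Submodule F (ZMod (k + 1) → F)), ?_, ?_, ?_⟩
  · apply inv_of_shift' (k + 1) hn
    intro c hc
    have h4 := hC c hc
    refine (congrArg (· ∈ C) ?_).mp h4
    funext j
    rw [finRotate_succ_apply]
    rfl
  · rw [Nat.card_zmod]
    exact h2
  · intro c hc hc0
    rw [Nat.card_zmod]
    have h4 : (wt c : ℝ) = (hammingNorm (c : Fin (k + 1) → F) : ℝ) := by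
      exact congrArg Nat.cast (wt_eq_hammingNorm (X := Fin (k + 1)) c)
    rw [h4]
    exact h3 c hc hc0

lemma P_to_cyc {F : Type} [Field F] [DecidableEq F] (n : ℕ) (hn : 0 < n) (R δ : ℝ)
    (h : P F (ZMod n) R δ) :
    ∃ C : Submodule F (Fin n → F), (∀ c ∈ C, (fun j => c (finRotate n j)) ∈ C) ∧
      R * (n : ℝ) ≤ (Module.finrank F C : ℝ) ∧
      ∀ c ∈ C, c ≠ 0 → δ * (n : ℝ) ≤ (hammingNorm c : ℝ) := by
  obtain ⟨k, rfl⟩ : ∃ k, n = k + 1 := ⟨n - 1, by omega⟩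
  obtain ⟨C, h1, h2, h3⟩ := h
  rw [Nat.card_zmod] at h2 h3
  refine ⟨(C : Submodule F (Fin (k + 1) → F)), ?_, ?_, ?_⟩
  · intro c hc
    have h4 := h1 1 c hc
    refine (congrArg (· ∈ C) ?_).mp h4
    funext j
    rw [finRotate_succ_apply, add_comm]
    rfl
  · exact h2
  · intro c hc hc0
    have h4 : (wt c : ℝ) = (hammingNorm (c : Fin (k + 1) → F) : ℝ) := by
      exact congrArg Nat.cast (wt_eq_hammingNorm (X := Fin (k + 1)) c)
    rw [← h4]
    exact h3 c hc hc0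

lemma ab_to_P {F : Type} [Field F] [DecidableEq F] (n : ℕ) (hn : 0 < n) (A : Type)
    [AddCommGroup A] [Fintype A]
    (C : Submodule F (Fin n × A → F)) (hC : ∀ c ∈ C, (fun x => c (finRotate n x.1, x.2)) ∈ C)
    (hC' : ∀ c ∈ C, ∀ a : A, (fun x => c (x.1, a + x.2)) ∈ C)
    (R δ : ℝ)
    (h2 : R * ((n : ℝ) * (Fintype.card A : ℝ)) ≤ (Module.finrank F C : ℝ))
    (h3 : ∀ c ∈ C, c ≠ 0 → δ * ((n : ℝ) * (Fintype.card A : ℝ)) ≤ (hammingNorm c : ℝ)) :
    P F (ZMod n × A) R δ := by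
  obtain ⟨k, rfl⟩ : ∃ k, n = k + 1 := ⟨n - 1, by omega⟩
  have hcard : ((Nat.card (ZMod (k + 1) × A) : ℕ) : ℝ) = ((k + 1 : ℕ) : ℝ) * (Fintype.card A : ℝ) := by
    rw [Nat.card_prod, Nat.card_zmod, Nat.card_eq_fintype_card]
    push_cast
    ring
  refine ⟨(C : Submodule F (ZMod (k + 1) × A → F)), ?_, ?_, ?_⟩
  · apply inv_of_shift (k + 1) hn
    · intro c hc
      have h4 := hC c hc
      refine (congrArg (· ∈ C) ?_).mp h4
      funext j
      rw [finRotate_succ_apply]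
      rfl
    · intro c hc a
      exact hC' c hc a
  · rw [hcard]
    exact h2
  · intro c hc hc0
    rw [hcard]
    have h4 : (wt c : ℝ) = (hammingNorm (c : Fin (k + 1) × A → F) : ℝ) := by
      exact congrArg Nat.cast (wt_eq_hammingNorm (X := Fin (k + 1) × A) c)
    rw [h4]
    exact h3 c hc hc0

/-- Extraction of convergent subsequences. -/
lemma extract (ε : ℝ) (r s : ℕ → ℝ) (hr : ∀ i, ε ≤ r i ∧ r i ≤ 1) (hs : ∀ i, ε ≤ s i ∧ s i ≤ 1) :
    ∃ (φ : ℕ → ℕ) (R δ : ℝ), StrictMono φ ∧ ε ≤ R ∧ ε ≤ δ ∧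
      Tendsto (fun i => r (φ i)) atTop (nhds R) ∧ Tendsto (fun i => s (φ i)) atTop (nhds δ) := by
  have hK : IsCompact ((Set.Icc ε 1) ×ˢ (Set.Icc ε 1) : Set (ℝ × ℝ)) :=
    isCompact_Icc.prod isCompact_Icc
  obtain ⟨a, ha, φ, hφ, hlim⟩ := hK.tendsto_subseq (x := fun i => (r i, s i))
    (fun i => ⟨⟨(hr i).1, (hr i).2⟩, ⟨(hs i).1, (hs i).2⟩⟩)
  refine ⟨φ, a.1, a.2, hφ, ha.1.1, ha.2.1, ?_, ?_⟩
  · exact ((continuous_fst.tendsto a).comp hlim)
  · exact ((continuous_snd.tendsto a).comp hlim)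

/-- The quantitative form of goodness. -/
def GoodE (F : Type) [Field F] : Prop :=
  ∃ ε : ℝ, 0 < ε ∧ ∀ N0 : ℕ, ∃ n : ℕ, N0 ≤ n ∧ 0 < n ∧ P F (ZMod n) ε ε

/-- Extension of scalars. -/
lemma goodE_hom {K L : Type} [Field K] [Field L] [Finite L] (f : K →+* L) (h : GoodE K) :
    GoodE L := by
  obtain ⟨ε, hε, h⟩ := h
  refine ⟨ε, hε, fun N0 => ?_⟩
  obtain ⟨n, hn, hn0, hP⟩ := h N0
  have hnz : NeZero n := ⟨hn0.ne'⟩
  exact ⟨n, hn, hn0, P_ext_hom f hP⟩

/-- Descent to the prime field. -/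
theorem goodE_prime (p : ℕ) [hp : Fact p.Prime] (K : Type) [Field K] [Finite K]
    [Algebra (ZMod p) K] (h : GoodE K) : GoodE (ZMod p) := by
  obtain ⟨ε, hε, h⟩ := h
  obtain ⟨B, hB⟩ := exists_nat_ge (2 / ε)
  obtain ⟨N, L, _, _, _, ζ, hN, hNB, hζ, hgen, ⟨f⟩⟩ := exists_field p K B
  have hNpos : (0 : ℝ) < N := by exact_mod_cast hN.pos
  have hfd : FiniteDimensional (ZMod p) L := Module.Finite.of_finite
  have hNR : 2 ≤ ε * N := by
    have h1 : 2 / ε ≤ N := le_trans hB (by exact_mod_cast hNB)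
    rw [div_le_iff₀ hε] at h1
    linarith
  refine ⟨ε / (2 * N), by positivity, fun N0 => ?_⟩
  obtain ⟨n, hn, hn0, hP⟩ := h N0
  have hnz : NeZero n := ⟨hn0.ne'⟩
  obtain ⟨n', hn', hP'⟩ := step (F := ZMod p) N hN ζ hζ hgen hε hNR n hn0 (P_ext_hom f hP)
  refine ⟨n', le_trans hn hn', lt_of_lt_of_le hn0 hn', P_mono le_rfl ?_ hP'⟩
  apply div_le_div_of_nonneg_left hε.le hNpos
  linarith

/-- Dropping the factor `A`. -/
theorem goodE_of_abelian (p : ℕ) [hp : Fact p.Prime] (F : Type) [Field F] [Finite F]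
    [Algebra (ZMod p) F] (e : ℕ) (he : 0 < e) (ε : ℝ) (hε : 0 < ε)
    (h : ∀ N0 : ℕ, ∃ n : ℕ, N0 ≤ n ∧ 0 < n ∧ ∃ (A : Type) (_ : AddCommGroup A) (_ : Finite A),
      (∀ a : A, ∃ s : ℕ, (p ^ s * e) • a = 0) ∧ P F (ZMod n × A) ε ε) : GoodE (ZMod p) := by
  let L := (X ^ e - 1 : F[X]).SplittingField
  have hfdL : FiniteDimensional F L := inferInstance
  have hfinL : Finite L := Module.finite_of_finite F
  have halg : Algebra (ZMod p) L := ((algebraMap F L).comp (algebraMap (ZMod p) F)).toAlgebra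
  have hchar : CharP L p := charP_of_injective_algebraMap (algebraMap (ZMod p) L).injective p
  have hsplit : (X ^ e - 1 : L[X]).Splits := by
    have := SplittingField.splits (X ^ e - 1 : F[X])
    rwa [Polynomial.map_sub, Polynomial.map_pow, map_X, Polynomial.map_one] at this
  apply goodE_prime p L
  refine ⟨ε, hε, fun N0 => ?_⟩
  obtain ⟨n, hn, hn0, A, _, _, hA, hP⟩ := h N0
  have hnz : NeZero n := ⟨hn0.ne'⟩
  refine ⟨n, hn, hn0, ?_⟩
  have hP' : P L (ZMod n × A) ε ε := P_ext_hom (algebraMap F L) hP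
  exact droppable_of_exponent p e he hsplit A hA (ZMod n) ε ε hP'

end Pool.Agent.Helper83.Cyc
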