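import Pool.Agent.Helper83.Cyc.Eigen

set_option autoImplicit false

open Polynomial

namespace Pool.Agent.Helper83.Cyc

lemma wt_smul_pow {L X Y : Type} [Field L] [Finite X] [Finite Y] (c : X → L) (u : Y → L)
    (hu : ∀ y, u y ≠ 0) : wt (fun z : X × Y => u z.2 * c z.1) = wt c * Nat.card Y := by
  unfold wt
  have : {z : X × Y | u z.2 * c z.1 ≠ 0} = {x | c x ≠ 0} ×ˢ (Set.univ : Set Y) := by
    ext z
    simp [hu z.2]
  rw [this, Set.ncard_prod, Set.ncard_univ]

/-- First case: `N` does not divide `n`. -/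
lemma step_coprime {F L : Type} [Field F] [Field L] [Algebra F L] [FiniteDimensional F L]
    (N : ℕ) (hN : N.Prime) (ζ : L) (hζ : IsPrimitiveRoot ζ N) (hgen : Algebra.adjoin F {ζ} = ⊤)
    {R δ : ℝ} (n : ℕ) (hn : 0 < n) (hcop : n.Coprime N) (h : P L (ZMod n) R δ) :
    P F (ZMod (n * N)) (R / N) (δ / N) := by
  obtain ⟨C, h1, h2, h3⟩ := h
  have : NeZero n := ⟨hn.ne'⟩
  have : NeZero N := ⟨hN.pos.ne'⟩
  have hNpos : (0 : ℝ) < N := by exact_mod_cast hN.pos
  have : Fact (1 < N) := ⟨hN.one_lt⟩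
  have hζN : ζ ^ N = 1 := hζ.pow_eq_one
  have hζ0 : ζ ≠ 0 := hζ.ne_zero hN.pos.ne'
  let u : ZMod N → L := fun t => ζ ^ t.val
  have hu0 : ∀ t, u t ≠ 0 := fun t => pow_ne_zero _ hζ0
  have huadd : ∀ s t, u (s + t) = u s * u t := by
    intro s t
    show ζ ^ (s + t).val = ζ ^ s.val * ζ ^ t.val
    rw [ZMod.val_add, ← pow_add, ← pow_eq_pow_mod _ hζN]
  have hu1 : u 1 = ζ := by
    show ζ ^ (1 : ZMod N).val = ζ
    rw [ZMod.val_one, pow_one]
  have hu00 : u 0 = 1 := by
    show ζ ^ (0 : ZMod N).val = 1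
    rw [ZMod.val_zero, pow_zero]
  let M : (ZMod n → L) →ₗ[L] (ZMod n × ZMod N → L) :=
    { toFun := fun c z => u z.2 * c z.1
      map_add' := by
        intro a b
        funext z
        simp [mul_add]
      map_smul' := by
        intro r a
        funext z
        simp only [Pi.smul_apply, smul_eq_mul, RingHom.id_apply]
        ring }
  have hM : ∀ c z, M c z = u z.2 * c z.1 := fun c z => rfl
  have hMinj : Function.Injective M := by
    intro a b hab
    funext x
    have := congrFun hab (x, 0)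
    rw [hM, hM] at this
    simpa [hu00] using this
  have hinv : Inv (C.map M) := by
    rintro g _ ⟨c, hc, rfl⟩
    refine ⟨u g.2 • (fun x => c (g.1 + x)), C.smul_mem _ (h1 g.1 c hc), ?_⟩
    funext z
    rw [hM]
    show u z.2 * (u g.2 * c (g.1 + z.1)) = u (g.2 + z.2) * c (g.1 + z.1)
    rw [huadd]
    ring
  obtain ⟨E, hE1, hE2, hE3⟩ := descend (F := F) (C.map M) hinv ((0, 1) : ZMod n × ZMod N) N
    hN.pos (by ext <;> simp) ζ hgen (by
      rintro _ ⟨c, hc, rfl⟩ z
      rw [hM, hM]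
      show u (1 + z.2) * c (0 + z.1) = ζ * (u z.2 * c z.1)
      rw [huadd, hu1, zero_add]
      ring)
  have hcardG : Nat.card (ZMod n × ZMod N) = n * N := by
    rw [Nat.card_prod, Nat.card_zmod, Nat.card_zmod]
  have hfin : Module.finrank L (C.map M) = Module.finrank L C := by
    have := LinearEquiv.finrank_eq (Submodule.equivMapOfInjective M hMinj C)
    exact this.symm
  refine P_of_equiv (ZMod.chineseRemainder hcop).toAddEquiv.symm (G := ZMod n × ZMod N) ?_
  refine ⟨E, hE1, ?_, ?_⟩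
  · rw [hcardG]
    rw [hfin] at hE2
    have h4 : (Module.finrank L C : ℝ) ≤ Module.finrank F E := by exact_mod_cast hE2
    refine le_trans (le_of_eq ?_) (le_trans h2 h4)
    rw [Nat.card_zmod]
    push_cast
    field_simp
  · intro c hc hc0
    obtain ⟨c', hc', hc'0, hw⟩ := hE3 c hc hc0
    obtain ⟨c0, hc0', rfl⟩ := hc'
    have hc00 : c0 ≠ 0 := by
      rintro rfl
      exact hc'0 (map_zero M)
    have h5 := h3 c0 hc0' hc00
    have h6 : wt (M c0) = wt c0 * N := by
      have := wt_smul_pow c0 u hu0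
      rw [Nat.card_zmod] at this
      exact this
    rw [h6, mul_comm] at hw
    have h7 : wt c0 ≤ wt c := Nat.le_of_mul_le_mul_left hw hN.pos
    have h8 : (wt c0 : ℝ) ≤ wt c := by exact_mod_cast h7
    rw [hcardG]
    refine le_trans (le_of_eq ?_) (le_trans h5 h8)
    rw [Nat.card_zmod]
    push_cast
    field_simp

lemma iter_eig {L G : Type} [Field L] [AddCommGroup G] (c : G → L) (g : G) (η : L)
    (h : ∀ x, c (g + x) = η * c x) (k : ℕ) (x : G) : c (k • g + x) = η ^ k * c x := by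
  induction k generalizing x with
  | zero => simp
  | succ k ih =>
    rw [succ_nsmul', add_assoc, h, ih, pow_succ']
    ring

/-- The part of a cyclic code consisting of the words with period `m` has dimension at most
`m`. -/
lemma finrank_eig_one_le {L : Type} [Field L] (n m : ℕ) (hn : 0 < n) (hm : 0 < m)
    (C : Submodule L (ZMod n → L)) (η : L) :
    Module.finrank L (eig C ((m : ℕ) : ZMod n) η) ≤ m := by
  have : NeZero n := ⟨hn.ne'⟩
  let f : (eig C ((m : ℕ) : ZMod n) η) →ₗ[L] (Fin m → L) :=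
    { toFun := fun c i => (c : ZMod n → L) ((i : ℕ) : ZMod n)
      map_add' := by
        intro a b
        rfl
      map_smul' := by
        intro r a
        rfl }
  have hf : Function.Injective f := by
    rw [← LinearMap.ker_eq_bot, LinearMap.ker_eq_bot']
    intro c hc
    apply Subtype.ext
    funext x
    have h1 : x = (x.val / m) • ((m : ℕ) : ZMod n) + ((x.val % m : ℕ) : ZMod n) := by
      conv_lhs => rw [← ZMod.natCast_zmod_val x, ← Nat.div_add_mod x.val m]
      push_cast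
      rw [nsmul_eq_mul]
      ring
    rw [h1, iter_eig _ _ _ c.2.2]
    have h2 : (c : ZMod n → L) ((x.val % m : ℕ) : ZMod n) = 0 :=
      congrFun hc ⟨x.val % m, Nat.mod_lt _ hm⟩
    rw [h2, mul_zero]
    rfl
  have := LinearMap.finrank_le_finrank_of_injective hf
  simpa using this

lemma adjoin_eq_top_of_prime {F L : Type} [Field F] [Field L] [Algebra F L]
    (N : ℕ) (hN : N.Prime) (ζ : L) (hζ : IsPrimitiveRoot ζ N) (hgen : Algebra.adjoin F {ζ} = ⊤)
    (η : L) (h1 : η ^ N = 1) (h2 : η ≠ 1) : Algebra.adjoin F {η} = ⊤ := by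
  have hNZ : NeZero N := ⟨hN.pos.ne'⟩
  have hfact : Fact N.Prime := ⟨hN⟩
  have h3 : IsPrimitiveRoot η N := by
    rw [IsPrimitiveRoot.iff_orderOf]
    exact orderOf_eq_prime h1 h2
  obtain ⟨i, _, hi⟩ := h3.eq_pow_of_pow_eq_one hζ.pow_eq_one
  have h4 : Algebra.adjoin F {ζ} ≤ Algebra.adjoin F {η} := by
    rw [Algebra.adjoin_le_iff, Set.singleton_subset_iff]
    rw [← hi]
    exact pow_mem (Algebra.subset_adjoin (Set.mem_singleton η)) i
  rw [hgen] at h4
  exact top_le_iff.1 h4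

/-- The roots of `X ^ N - 1` when there is a primitive root. -/
lemma roots_facts {L : Type} [Field L] (N : ℕ) (hN : 0 < N) (ζ : L) (hζ : IsPrimitiveRoot ζ N) :
    (X ^ N - 1 : L[X]).Splits ∧ ∃ s : Multiset L, (X ^ N - 1 : L[X]).roots = 1 ::ₘ s ∧
      (1 : L) ∉ s ∧ s.card + 1 = N ∧ ∀ η ∈ s, η ^ N = 1 := by
  have hXC : (X ^ N - 1 : L[X]) = X ^ N - C 1 := by rw [map_one]
  have hrts' : (X ^ N - 1 : L[X]).roots = nthRoots N (1 : L) := by rw [hXC]; rfl
  have hnodup : (nthRoots N (1 : L)).Nodup := hζ.nthRoots_one_nodup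
  have hcard : (nthRoots N (1 : L)).card = N := hζ.card_nthRoots_one
  have h1mem : (1 : L) ∈ nthRoots N (1 : L) := by
    rw [mem_nthRoots hN]
    exact one_pow N
  obtain ⟨s, hs⟩ := Multiset.exists_cons_of_mem h1mem
  refine ⟨?_, s, ?_, ?_, ?_, ?_⟩
  · rw [hXC]
    exact X_pow_sub_C_splits_of_isPrimitiveRoot hζ (α := 1) (one_pow N)
  · rw [hrts', hs]
  · rw [hs] at hnodup
    exact (Multiset.nodup_cons.1 hnodup).1
  · rw [hs, Multiset.card_cons] at hcard
    exact hcard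
  · intro η hη
    have : η ∈ nthRoots N (1 : L) := by rw [hs]; exact Multiset.mem_cons_of_mem hη
    rw [mem_nthRoots hN] at this
    exact this

/-- Averaging over a multiset. -/
lemma exists_good {L : Type} (f : L → ℕ) (s : Multiset L) (a : L) (N : ℕ) (hs : s.card + 1 = N)
    (m : ℕ) (hm : 0 < m) (hfa : f a ≤ m) (R : ℝ) (hR : 0 < R) (hNR : 2 ≤ R * N) (k : ℕ)
    (hk : k ≤ ((a ::ₘ s).map f).sum) (hRk : R * (m * N) ≤ k) :
    ∃ η ∈ s, R / 2 * m ≤ (f η : ℝ) := by
  have hmpos : (0 : ℝ) < m := by exact_mod_cast hm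
  by_contra hcon
  push Not at hcon
  rw [Multiset.map_cons, Multiset.sum_cons] at hk
  have h6 : (((s.map f).sum : ℕ) : ℝ) ≤ (s.card : ℝ) * (R / 2 * m) := by
    rw [← nsmul_eq_mul, Nat.cast_multiset_sum, Multiset.map_map]
    refine le_trans (Multiset.sum_le_card_nsmul _ (R / 2 * m) ?_) ?_
    · intro x hx
      rw [Multiset.mem_map] at hx
      obtain ⟨η, hη, rfl⟩ := hx
      exact (hcon η hη).le
    · rw [Multiset.card_map]
  have h8 : (k : ℝ) ≤ (f a : ℝ) + (((s.map f).sum : ℕ) : ℝ) := by exact_mod_cast hk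
  have h9 : (f a : ℝ) ≤ m := by exact_mod_cast hfa
  have h10 : (s.card : ℝ) = N - 1 := by
    have : ((s.card + 1 : ℕ) : ℝ) = N := by exact_mod_cast hs
    push_cast at this
    linarith
  rw [h10] at h6
  have h11 : R * (m * N) ≤ m + (N - 1) * (R / 2 * m) := by linarith
  have h12 : m * (R * N / 2 + R / 2) ≤ m * 1 := by
    have : m * (R * N / 2 + R / 2) = R * (m * N) - (N - 1) * (R / 2 * m) := by ring
    rw [this]
    linarith
  have h13 : R * N / 2 + R / 2 ≤ 1 := le_of_mul_le_mul_left h12 hmpos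
  linarith

/-- Second case: `N` divides `n`. -/
lemma step_dvd {F L : Type} [Field F] [Field L] [Algebra F L] [FiniteDimensional F L]
    (N : ℕ) (hN : N.Prime) (ζ : L) (hζ : IsPrimitiveRoot ζ N) (hgen : Algebra.adjoin F {ζ} = ⊤)
    {R δ : ℝ} (hR : 0 < R) (hNR : 2 ≤ R * N) (m n : ℕ) (hm : 0 < m) (hnm : n = m * N)
    (h : P L (ZMod n) R δ) :
    P F (ZMod n) (R / (2 * N)) (δ / N) := by
  obtain ⟨D, h1, h2, h3⟩ := h
  have hn : 0 < n := by rw [hnm]; exact Nat.mul_pos hm hN.pos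
  have hnz : NeZero n := ⟨hn.ne'⟩
  have hNpos : (0 : ℝ) < N := by exact_mod_cast hN.pos
  have hNg : N • ((m : ℕ) : ZMod n) = 0 := by
    rw [nsmul_eq_mul, mul_comm, ← Nat.cast_mul, ← hnm]
    exact ZMod.natCast_self _
  obtain ⟨hsplit, s, hs, hs1, hscard, hsmem⟩ := roots_facts N hN.pos ζ hζ
  have hsum := finrank_le_sum_eig D h1 ((m : ℕ) : ZMod n) N hN.pos hNg hsplit
  rw [hs] at hsum
  have h5 : Module.finrank L (eig D ((m : ℕ) : ZMod n) 1) ≤ m :=
    finrank_eig_one_le n m hn hm D 1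
  rw [Nat.card_zmod] at h2 h3
  have hnm' : (n : ℝ) = m * N := by rw [hnm]; push_cast; rfl
  have h2' : R * (m * N) ≤ (Module.finrank L D : ℝ) := by
    rw [← hnm']
    exact h2
  obtain ⟨η, hηs, hη⟩ := exists_good (fun η => Module.finrank L (eig D ((m : ℕ) : ZMod n) η)) s 1 N
    hscard m hm h5 R hR hNR _ hsum h2'
  have hη1 : η ^ N = 1 := hsmem η hηs
  have hηne : η ≠ 1 := by
    rintro rfl
    exact hs1 hηs
  have hηgen := adjoin_eq_top_of_prime (F := F) N hN ζ hζ hgen η hη1 hηne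
  obtain ⟨E, hE1, hE2, hE3⟩ := descend (F := F) (eig D ((m : ℕ) : ZMod n) η)
    (eig_inv D h1 _ _) ((m : ℕ) : ZMod n) N hN.pos hNg η hηgen (fun c hc x => hc.2 x)
  refine ⟨E, hE1, ?_, ?_⟩
  · have h4 : (Module.finrank L (eig D ((m : ℕ) : ZMod n) η) : ℝ) ≤ Module.finrank F E := by
      exact_mod_cast hE2
    refine le_trans (le_of_eq ?_) (le_trans hη h4)
    rw [Nat.card_zmod, hnm']
    field_simp
  · intro c hc hc0
    obtain ⟨c', hc', hc'0, hw⟩ := hE3 c hc hc0
    have h5 := h3 c' hc'.1 hc'0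
    have h8 : (wt c' : ℝ) ≤ N * wt c := by exact_mod_cast hw
    have h9 := le_trans h5 h8
    rw [Nat.card_zmod]
    have h10 : δ / N * (n : ℝ) = (δ * (n : ℝ)) / N := by
      ring
    rw [h10, div_le_iff₀ hNpos]
    linarith

/-- The descent step. -/
theorem step {F L : Type} [Field F] [Field L] [Algebra F L] [FiniteDimensional F L]
    (N : ℕ) (hN : N.Prime) (ζ : L) (hζ : IsPrimitiveRoot ζ N) (hgen : Algebra.adjoin F {ζ} = ⊤)
    {R δ : ℝ} (hR : 0 < R) (hNR : 2 ≤ R * N) (n : ℕ) (hn : 0 < n)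
    (h : P L (ZMod n) R δ) : ∃ n' : ℕ, n ≤ n' ∧ P F (ZMod n') (R / (2 * N)) (δ / N) := by
  have hNpos : (0 : ℝ) < N := by exact_mod_cast hN.pos
  by_cases hdvd : N ∣ n
  · obtain ⟨m, rfl⟩ := hdvd
    have hm : 0 < m := Nat.pos_of_mul_pos_left hn
    exact ⟨N * m, le_refl _, step_dvd N hN ζ hζ hgen hR hNR m (N * m) hm (mul_comm N m) h⟩
  · have hcop : n.Coprime N := ((Nat.Prime.coprime_iff_not_dvd hN).2 hdvd).symm
    refine ⟨n * N, Nat.le_mul_of_pos_right n hN.pos, ?_⟩
    refine P_mono ?_ le_rfl (step_coprime N hN ζ hζ hgen n hn hcop h)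
    apply div_le_div_of_nonneg_left hR.le hNpos
    linarith

end Pool.Agent.Helper83.Cyc
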